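import Pool.Agent.U317.UV.Idx

/-!
# Families of regulators with localization sequences and products with `𝔾_m`

No statement on affine bundles is needed; the weight can be fixed.
-/

set_option autoImplicit false

open CategoryTheory AlgebraicGeometry Pool.Agent.Y116.UV Pool.Agent.Z125.UN Pool.Agent.Q193.LT
  Pool.Agent.Q282.UK Pool.Agent.Q282.UZ
open scoped TensorProduct

namespace Pool.Agent.U317.UV

variable {E : Type} [Field E] [Algebra ℚ E]

lemma Hom.sq {S T : Obj E} (f : Hom S T) (x : E ⊗[ℚ] S.M) :
    T.rr (f.a.baseChange E x) = genMap f.b f.F (S.rr x) :=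
  Subtype.ext (f.r x).symm

lemma Hom.gen_bij {S T : Obj E} (f : Hom S T) (hb : Function.Bijective f.b) :
    Function.Bijective (genMap f.b f.F) := by
  refine ⟨fun x y h => Subtype.ext (hb.1 (congrArg Subtype.val h)), fun y => ?_⟩
  obtain ⟨x, hx⟩ := hb.2 y.1
  have h3 : x ∈ gen S.F := by
    obtain ⟨n, hn⟩ := mem_gen.mp y.2
    refine mem_gen.mpr ⟨n, hb.1 ?_⟩
    rw [comm_pow f.F, hx, hn, map_zero]
  exact ⟨⟨x, h3⟩, Subtype.ext hx⟩

lemma Obj.Same.good {S T : Obj E} (h : S.Same T) (hS : S.Good) : T.Good := by
  obtain ⟨f, ha, hb⟩ := h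
  have h1 := baseChange_bij (E := E) f.a ha
  have h2 : Function.Bijective (T.rr ∘ f.a.baseChange E) := by
    have h3 : (T.rr ∘ f.a.baseChange E) = (genMap f.b f.F) ∘ S.rr := funext f.sq
    rw [h3]
    exact (f.gen_bij hb).comp (S.good_iff.mp hS)
  exact T.good_iff.mpr ((Function.Bijective.of_comp_iff _ h1).mp h2)

lemma Obj.Factor.good {S T : Obj E} (h : S.Factor T) (hT : T.Good) : S.Good := by
  obtain ⟨s, t, ha, hb⟩ := h
  have hT' := T.good_iff.mp hT
  have h1 : ∀ x, t.a.baseChange E (s.a.baseChange E x) = x := by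
    intro x
    have h2 : t.a ∘ₗ s.a = LinearMap.id := LinearMap.ext ha
    have h3 : (t.a.baseChange E) ∘ₗ (s.a.baseChange E) = LinearMap.id := by
      rw [← LinearMap.baseChange_comp, h2, LinearMap.baseChange_id]
    exact LinearMap.congr_fun h3 x
  refine S.good_iff.mpr ⟨fun x y hxy => ?_, fun y => ?_⟩
  · have h2 : T.rr (s.a.baseChange E x) = T.rr (s.a.baseChange E y) := by
      rw [s.sq, s.sq, hxy]
    rw [← h1 x, hT'.1 h2, h1]
  · obtain ⟨x, hx⟩ := hT'.2 (genMap s.b s.F y)
    refine ⟨t.a.baseChange E x, ?_⟩
    rw [t.sq, hx]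
    exact Subtype.ext (hb _)

section

variable {R : Type} [CommRing R] {ι : Type}

/-- The localization sequences and the products with `𝔾_m`. -/
structure IsLoc (T : ι → Sch R → Obj E) (δ σ : ι ≃ ι) : Prop where
  iso : ∀ {X Y : Sch R}, FT True X → Nonempty (X ≅ Y) → ∀ q, (T q X).Same (T q Y)
  localization : ∀ {Z X U : Sch R} (i : Z ⟶ X) (j : U ⟶ X), FT True X → IsTriple i j →
    HasLes T δ Z X U
  torus : ∀ (B : Type) [CommRing B] [Algebra R B] [Algebra.FiniteType R B] (q : ι),
    (T q (aff R B)).Factor (T (σ q) (aff R (LaurentPolynomial B)))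

theorem clo_allGood {T : ι → Sch R → Obj E} {δ σ : ι ≃ ι} (h : IsLoc T δ σ) :
    Clo True (AllGood T) where
  iso hX e hg q := (h.iso hX e q).good (hg q)
  total {Z X U} i j hX ht hZ hU := by
    rw [allGood_iff] at hZ hU ⊢
    exact (les_pair (h.localization i j hX ht)).mid hZ hU
  opened {Z X U} i j hX ht hZ hX' := by
    rw [allGood_iff] at hZ hX' ⊢
    exact (les_pair (h.localization i j hX ht)).right hZ hX'
  torus B _ _ _ hg q := (h.torus B q).good (hg (σ q))

end

/-- **De Jong's theorem on alterations of arithmetic schemes**, in the form of a principle of dévissage: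
a property of separated schemes of finite type over `ℤ` which is closed under isomorphisms, under
closed-open decompositions and under the passage from `V` to `U` for finite flat surjective morphisms
`V → U` of integral schemes (`AltClosed`), and which is true for all regular integral schemes which are
proper over `ℤ`, is true for all separated schemes of finite type over `ℤ`. -/
def DeJong : Prop :=
  ∀ P : Sch ℤ → Prop, AltClosed P →
    (∀ X : Sch ℤ, FT True X → IsProper X.hom → IsIntegral X.left →
      (∀ x : X.left, IsRegularLocalRing (X.left.presheaf.stalk x)) → P X) →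
    ∀ X : Sch ℤ, FT True X → P X

theorem altClosed_of_clo {P : Sch ℤ → Prop} (hP : Clo True P)
    (hf : ∀ {V U : Sch ℤ} (f : V ⟶ U), FT True U → IsFinite f.left → Flat f.left →
      Surjective f.left → IsIntegral V.left → IsIntegral U.left → P V → P U) : AltClosed P where
  iso := hP.iso
  total := hP.total
  opened := hP.opened
  finite := hf

/-- Faithfully flat descent of injectivity. -/
lemma inj_of_baseChange {M N : Type} [AddCommGroup M] [AddCommGroup N] [Module ℚ M] [Module ℚ N]
    (a : M →ₗ[ℚ] N) (h : Function.Injective (a.baseChange E)) : Function.Injective a := by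
  exact (Module.FaithfullyFlat.lTensor_injective_iff_injective ℚ E a).mp h

end Pool.Agent.U317.UV
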