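import Mathlib

/-!
# Exactness of the generalized eigenspace for the eigenvalue `1`

For finite-dimensional vector spaces with an endomorphism, the functor of the generalized eigenspace of the
eigenvalue `1` is exact.
-/

set_option autoImplicit false

namespace Pool.Agent.U317.UV

variable {E : Type} [Field E]

section

variable {P Q S : Type} [AddCommGroup P] [Module E P] [AddCommGroup Q] [Module E Q] [AddCommGroup S]
  [Module E S]

/-- The generalized eigenspace of `F` for the eigenvalue `1`. -/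
def gen (F : Module.End E P) : Submodule E P := ⨆ n : ℕ, LinearMap.ker ((F - 1) ^ n)

lemma mem_gen {F : Module.End E P} {x : P} : x ∈ gen F ↔ ∃ n : ℕ, ((F - 1) ^ n) x = 0 := by
  unfold gen
  rw [Submodule.mem_iSup_of_directed]
  · simp only [LinearMap.mem_ker]
  · intro a b
    refine ⟨a + b, ?_, ?_⟩
    · intro y hy
      rw [LinearMap.mem_ker] at hy ⊢
      rw [add_comm, pow_add, Module.End.mul_apply, hy, map_zero]
    · intro y hy
      rw [LinearMap.mem_ker] at hy ⊢
      rw [pow_add, Module.End.mul_apply, hy, map_zero]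

lemma comm_pow {F : Module.End E P} {G : Module.End E Q} {b : P →ₗ[E] Q} (h : ∀ x, b (F x) = G (b x)) (n : ℕ)
    (x : P) : b (((F - 1) ^ n) x) = ((G - 1) ^ n) (b x) := by
  induction n generalizing x with
  | zero => rfl
  | succ n ih =>
    rw [pow_succ, pow_succ, Module.End.mul_apply, Module.End.mul_apply, ih]
    congr 1
    rw [LinearMap.sub_apply, LinearMap.sub_apply, map_sub, h]
    rfl

lemma map_gen {F : Module.End E P} {G : Module.End E Q} {b : P →ₗ[E] Q} (h : ∀ x, b (F x) = G (b x)) {x : P}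
    (hx : x ∈ gen F) : b x ∈ gen G := by
  obtain ⟨n, hn⟩ := mem_gen.mp hx
  exact mem_gen.mpr ⟨n, by rw [← comm_pow h, hn, map_zero]⟩

lemma ker_le_gen (F : Module.End E P) : LinearMap.ker (F - 1) ≤ gen F := by
  intro x hx
  exact mem_gen.mpr ⟨1, by rw [pow_one]; exact hx⟩

/-- If the kernels of `F - 1` and `(F - 1)^2` are equal, then the generalized eigenspace is the
eigenspace. -/
lemma gen_of_semisimple {F : Module.End E P}
    (h : LinearMap.ker ((F - 1) ^ 2) = LinearMap.ker (F - 1)) :
    gen F = LinearMap.ker (F - 1) := by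
  apply le_antisymm _ (ker_le_gen F)
  intro x hx
  obtain ⟨n, hn⟩ := mem_gen.mp hx
  induction n with
  | zero =>
    rw [pow_zero, Module.End.one_apply] at hn
    rw [hn]
    exact Submodule.zero_mem _
  | succ n ih =>
    rcases n with _ | n
    · rwa [pow_one] at hn
    · apply ih
      have h1 : ((F - 1) ^ n) x ∈ LinearMap.ker ((F - 1) ^ 2) := by
        rw [LinearMap.mem_ker, ← Module.End.mul_apply, ← pow_add, add_comm]
        exact hn
      rw [h, LinearMap.mem_ker] at h1
      rw [pow_succ', Module.End.mul_apply]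
      exact h1

lemma semisimple_of_gen {F : Module.End E P} (h : gen F ≤ LinearMap.ker (F - 1)) :
    LinearMap.ker ((F - 1) ^ 2) = LinearMap.ker (F - 1) := by
  apply le_antisymm
  · intro x hx
    exact h (mem_gen.mpr ⟨2, hx⟩)
  · intro x hx
    rw [LinearMap.mem_ker] at hx ⊢
    rw [pow_two, Module.End.mul_apply, hx, map_zero]

/-- Exactness of the generalized eigenspace. -/
theorem gen_exact [FiniteDimensional E P] [FiniteDimensional E Q] {F : Module.End E P} {G : Module.End E Q}
    {b : P →ₗ[E] Q} (h : ∀ x, b (F x) = G (b x)) {q : Q} (hq : q ∈ gen G)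
    (hb : q ∈ LinearMap.range b) : ∃ p ∈ gen F, b p = q := by
  obtain ⟨p, rfl⟩ := hb
  have h1 := (LinearMap.isCompl_iSup_ker_pow_iInf_range_pow (F - 1)).sup_eq_top
  have h2 : p ∈ (⨆ n, LinearMap.ker ((F - 1) ^ n)) ⊔
      ⨅ n, LinearMap.range ((F - 1) ^ n) := by
    rw [h1]
    trivial
  obtain ⟨p0, hp0, p1, hp1, rfl⟩ := Submodule.mem_sup.mp h2
  refine ⟨p0, hp0, ?_⟩
  have h3 : b p1 ∈ gen G := by
    have h4 : b p1 = b (p0 + p1) - b p0 := by rw [map_add]; abel
    rw [h4]
    exact Submodule.sub_mem _ hq (map_gen h hp0)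
  have h5 : b p1 ∈ ⨅ n, LinearMap.range ((G - 1) ^ n) := by
    rw [Submodule.mem_iInf]
    intro n
    obtain ⟨z, hz⟩ := (Submodule.mem_iInf _).mp hp1 n
    exact ⟨b z, by rw [← comm_pow h, hz]⟩
  have h6 := (LinearMap.isCompl_iSup_ker_pow_iInf_range_pow (G - 1)).disjoint
  have h7 : b p1 = 0 := Submodule.disjoint_def.mp h6 _ h3 h5
  rw [map_add, h7, add_zero]

/-- The map of the generalized eigenspaces. -/
def genMap {F : Module.End E P} {G : Module.End E Q} (b : P →ₗ[E] Q) (h : ∀ x, b (F x) = G (b x)) :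
    gen F →ₗ[E] gen G :=
  b.restrict fun _ hx => map_gen h hx

lemma genMap_coe {F : Module.End E P} {G : Module.End E Q} (b : P →ₗ[E] Q) (h : ∀ x, b (F x) = G (b x))
    (x : gen F) : ((genMap b h x : gen G) : Q) = b x := rfl

/-- The sequence of the generalized eigenspaces is exact. -/
theorem genMap_exact [FiniteDimensional E P] [FiniteDimensional E Q] {F : Module.End E P}
    {G : Module.End E Q} {H : Module.End E S} (f : P →ₗ[E] Q) (g : Q →ₗ[E] S) (hf : ∀ x, f (F x) = G (f x))
    (hg : ∀ x, g (G x) = H (g x)) (he : Function.Exact f g) :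
    Function.Exact (genMap f hf) (genMap g hg) := by
  intro y
  constructor
  · intro hy
    have h1 : g y = 0 := congrArg Subtype.val hy
    obtain ⟨p, hp, hpy⟩ := gen_exact hf y.2 ((he y).mp h1)
    exact ⟨⟨p, hp⟩, Subtype.ext hpy⟩
  · rintro ⟨x, rfl⟩
    apply Subtype.ext
    exact (he _).mpr ⟨x, rfl⟩

end

end Pool.Agent.U317.UV
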