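import Pool.Agent.U317.UV.Reg
import Pool.Agent.Q282.UZ.Sys

/-!
# Regulators with two indices, and the reductions to trilinear forms and bilinear systems
-/

set_option autoImplicit false

open CategoryTheory AlgebraicGeometry Pool.Agent.Y116.UV Pool.Agent.Z125.UN Pool.Agent.Q193.LT
  Pool.Agent.Q282.UK Pool.Agent.Q282.UZ

namespace Pool.Agent.U317.UV

/-- The closure properties `Bnd` contain the closure properties `Clo`. -/
theorem clo_of_uni {R : Type} [CommRing R] {sep : Prop} {P : Sch R → Prop} (h : Uni sep P) :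
    Clo sep P where
  iso := h.iso
  total := h.total
  opened := h.opened
  torus := h.torus

/-- The shift of the first index by `-1`. -/
def dl : ℤ × ℤ ≃ ℤ × ℤ where
  toFun q := (q.1 - 1, q.2)
  invFun q := (q.1 + 1, q.2)
  left_inv q := by simp
  right_inv q := by simp

/-- The shift of the first index by `1`. -/
def sg : ℤ × ℤ ≃ ℤ × ℤ := dl.symm

/-- The Tate twist. -/
def tw21 : ℤ × ℤ ≃ ℤ × ℤ := Equiv.addRight ((2, 1) : ℤ × ℤ)

lemma tw21_zpow (n : ℤ) (q : ℤ × ℤ) : ((tw21 : Equiv.Perm (ℤ × ℤ)) ^ n) q = (q.1 + n * 2, q.2 + n) := by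
  have h : ((tw21 : Equiv.Perm (ℤ × ℤ)) ^ n) = Equiv.addRight (n • ((2, 1) : ℤ × ℤ)) :=
    Equiv.zsmul_addRight _ _
  rw [h]
  apply Prod.ext
  · simp
  · simp

/-- Over a finite prime field: all schemes, hypergraph cubics, three-term bilinear systems. -/
theorem prime_tfae {k : Type} [Field k] (hk : Function.Surjective (Int.cast : ℤ → k)) {P : Sch k → Prop}
    (hP : Bnd True P) :
    [∀ X : Sch k, FT True X → P X,
      ∀ (a b c : ℕ) (H : Finset (Fin a × Fin b × Fin c)), P (tripS k H),
      ForThreeTerms P].TFAE := by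
  tfae_have 1 → 2 := fun h a b c H => h _ (ft_aff True)
  tfae_have 2 → 1 := fun h X hX => universal_frac (frac_of_surj hk) hP.toUni h X hX
  tfae_have 1 ↔ 3 := three_iff (short_presents hk) (clo_of_uni hP.toUni)
  tfae_finish

/-- Schemes of dimension at most `n`, smooth ones, and trilinear forms with a short block. -/
theorem dim_tfae {k : Type} [Field k] [PerfectField k] {P : Sch k → Prop} (hP : Bnd True P) (n : ℕ) :
    [∀ X : Sch k, FT True X → topologicalKrullDim X.left ≤ n → P X,
      ∀ X : Sch k, FT True X → Smooth X.hom → topologicalKrullDim X.left ≤ n → P X,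
      ∀ (a b c : ℕ) (t : Fin a → Fin b → Fin c → k), (a ≤ n + 2 ∨ b ≤ n + 2 ∨ c ≤ n + 2) →
        P (hypS t)].TFAE := by
  tfae_have 1 ↔ 3 := dim_iff hP n
  tfae_have 2 ↔ 3 := smooth_iff hP n
  tfae_finish

end Pool.Agent.U317.UV
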