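import Pool.Agent.Q193.LT.Pair
import Pool.Agent.U317.UV.Gen

/-!
# Regulators into spaces with a Frobenius endomorphism

A rational vector space `M`, a finite-dimensional vector space `H` over a field `E` of characteristic zero
with an endomorphism `F`, and a linear map `r : E ⊗ M → H` whose values are fixed by `F`. Families of such
data depending on a scheme, with localization sequences.
-/

set_option autoImplicit false

open CategoryTheory AlgebraicGeometry Pool.Agent.Y116.UV Pool.Agent.Z125.UN Pool.Agent.Q193.LT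
open scoped TensorProduct

namespace Pool.Agent.U317.UV

variable {E : Type} [Field E] [Algebra ℚ E]

/-- A rational vector space `M`, a finite-dimensional `E`-vector space `H` with an endomorphism `F`, and
an `E`-linear map `r : E ⊗ M → H` with values in the invariants of `F`. -/
structure Obj (E : Type) [Field E] [Algebra ℚ E] where
  /-- the rational vector space -/
  M : ModuleCat.{0} ℚ
  /-- the vector space over `E` -/
  H : ModuleCat.{0} E
  /-- the endomorphism (Frobenius) -/
  F : Module.End E H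
  /-- the map (regulator) -/
  r : (E ⊗[ℚ] M) →ₗ[E] H
  finite : Module.Finite E H
  inv : ∀ x, F (r x) = r x

/-- Compatible linear maps. -/
structure Hom (S T : Obj E) where
  /-- the map of the rational vector spaces -/
  a : S.M →ₗ[ℚ] T.M
  /-- the map of the vector spaces over `E` -/
  b : S.H →ₗ[E] T.H
  F : ∀ x, b (S.F x) = T.F (b x)
  r : ∀ x, b (S.r x) = T.r (a.baseChange E x)

/-- The map `r` is an isomorphism onto the invariants of `F`, and the eigenvalue `1` of `F` is
semisimple. -/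
def Obj.Good (S : Obj E) : Prop :=
  Function.Injective S.r ∧ LinearMap.range S.r = LinearMap.ker (S.F - 1) ∧
    LinearMap.ker ((S.F - 1) ^ 2) = LinearMap.ker (S.F - 1)

/-- Two objects are isomorphic. -/
def Obj.Same (S T : Obj E) : Prop :=
  ∃ f : Hom S T, Function.Bijective f.a ∧ Function.Bijective f.b

/-- `S` is a direct factor of `T`. -/
def Obj.Factor (S T : Obj E) : Prop :=
  ∃ (s : Hom S T) (t : Hom T S), (∀ x, t.a (s.a x) = x) ∧ ∀ x, t.b (s.b x) = x

/-- The sequences `S → T → U` of both kinds are exact. -/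
def ExactHom {S T U : Obj E} (f : Hom S T) (g : Hom T U) : Prop :=
  Function.Exact f.a g.a ∧ Function.Exact f.b g.b

lemma Obj.range_le (S : Obj E) : LinearMap.range S.r ≤ gen S.F := by
  rintro _ ⟨x, rfl⟩
  apply ker_le_gen
  rw [LinearMap.mem_ker, LinearMap.sub_apply, S.inv]
  exact sub_self _

/-- The map `r`, with values in the generalized eigenspace. -/
def Obj.rr (S : Obj E) : (E ⊗[ℚ] S.M) →ₗ[E] gen S.F :=
  S.r.codRestrict _ fun x => S.range_le ⟨x, rfl⟩

lemma Obj.rr_coe (S : Obj E) (x : E ⊗[ℚ] S.M) : (S.rr x : S.H) = S.r x := rfl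

lemma Obj.good_iff (S : Obj E) : S.Good ↔ Function.Bijective S.rr := by
  constructor
  · rintro ⟨h1, h2, h3⟩
    refine ⟨fun x y h => h1 (congrArg Subtype.val h), fun y => ?_⟩
    have h4 : (y : S.H) ∈ LinearMap.range S.r := by
      rw [h2, ← gen_of_semisimple h3]
      exact y.2
    obtain ⟨x, hx⟩ := h4
    exact ⟨x, Subtype.ext hx⟩
  · rintro ⟨h1, h2⟩
    have h3 : gen S.F ≤ LinearMap.range S.r := by
      intro y hy
      obtain ⟨x, hx⟩ := h2 ⟨y, hy⟩
      exact ⟨x, congrArg Subtype.val hx⟩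
    have h4 : LinearMap.range S.r ≤ LinearMap.ker (S.F - 1) := by
      rintro _ ⟨x, rfl⟩
      rw [LinearMap.mem_ker, LinearMap.sub_apply, S.inv]
      exact sub_self _
    refine ⟨fun x y h => h1 (Subtype.ext h), le_antisymm h4 ((ker_le_gen _).trans h3),
      semisimple_of_gen (h3.trans h4)⟩

section pair

variable {R : Type} [CommRing R] {ι : Type}

/-- The comparison maps `E ⊗ M → gen F`. -/
noncomputable def toPair (T : ι → Sch R → Obj E) : PairData.{0} R ι E where
  A q X := ModuleCat.of E (E ⊗[ℚ] (T q X).M)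
  B q X := ModuleCat.of E (gen (T q X).F)
  ρ q X := ModuleCat.ofHom (T q X).rr

/-- the map of the first spaces -/
noncomputable def Hom.mA {S T : Obj E} (f : Hom S T) :
    ModuleCat.of E (E ⊗[ℚ] S.M) ⟶ ModuleCat.of E (E ⊗[ℚ] T.M) :=
  ModuleCat.ofHom (f.a.baseChange E)

/-- the map of the generalized eigenspaces -/
noncomputable def Hom.mB {S T : Obj E} (f : Hom S T) :
    ModuleCat.of E (gen S.F) ⟶ ModuleCat.of E (gen T.F) :=
  ModuleCat.ofHom (genMap f.b f.F)

lemma Hom.comm {S T : Obj E} (f : Hom S T) :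
    f.mA ≫ ModuleCat.ofHom T.rr = ModuleCat.ofHom S.rr ≫ f.mB :=
  ModuleCat.hom_ext (LinearMap.ext fun x => Subtype.ext (f.r x).symm)

lemma exact_mA {S T U : Obj E} {f : Hom S T} {g : Hom T U} (h : ExactHom f g) :
    ExactAt f.mA g.mA :=
  Module.Flat.lTensor_exact E h.1

lemma exact_mB {S T U : Obj E} {f : Hom S T} {g : Hom T U} (h : ExactHom f g) :
    ExactAt f.mB g.mB := by
  have := S.finite
  have := T.finite
  exact genMap_exact f.b g.b f.F g.F h.2

lemma baseChange_bij {M N : Type} [AddCommGroup M] [AddCommGroup N] [Module ℚ M] [Module ℚ N]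
    (a : M →ₗ[ℚ] N) (h : Function.Bijective a) : Function.Bijective (a.baseChange E) := by
  let e := LinearEquiv.ofBijective a h
  have h1 : a.baseChange E = (e.baseChange ℚ E M N).toLinearMap := by
    ext x
    rfl
  rw [h1]
  exact (e.baseChange ℚ E M N).bijective

/-- Isomorphic objects have isomorphic comparison maps. -/
lemma same_at {T : ι → Sch R → Obj E} {q q' : ι} {X Y : Sch R} (h : (T q X).Same (T q' Y)) :
    SameAt (toPair T) q X q' Y := by
  obtain ⟨f, ha, hb⟩ := h
  have h1 : IsIso f.mA := (bij_iff _).mp (baseChange_bij f.a ha)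
  have h2 : IsIso f.mB := by
    refine (bij_iff _).mp ⟨fun x y h => Subtype.ext (hb.1 (congrArg Subtype.val h)), fun y => ?_⟩
    obtain ⟨x, hx⟩ := hb.2 y.1
    have h3 : x ∈ gen (T q X).F := by
      obtain ⟨n, hn⟩ := mem_gen.mp y.2
      refine mem_gen.mpr ⟨n, hb.1 ?_⟩
      rw [comm_pow f.F, hx, hn, map_zero]
    exact ⟨⟨x, h3⟩, Subtype.ext hx⟩
  let e1 : ModuleCat.of E (E ⊗[ℚ] (T q X).M) ≅ ModuleCat.of E (E ⊗[ℚ] (T q' Y).M) := asIso f.mA
  let e2 : ModuleCat.of E (gen (T q X).F) ≅ ModuleCat.of E (gen (T q' Y).F) := asIso f.mB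
  exact ⟨e1, e2, f.comm⟩

lemma factor_at {T : ι → Sch R → Obj E} {q q' : ι} {X Y : Sch R} (h : (T q X).Factor (T q' Y)) :
    FactorAt (toPair T) q X q' Y := by
  obtain ⟨s, t, ha, hb⟩ := h
  refine ⟨s.mA, t.mA, s.mB, t.mB, ?_, ?_, s.comm, t.comm⟩
  · have h1 : t.a ∘ₗ s.a = LinearMap.id := LinearMap.ext ha
    have h2 : (t.a.baseChange E) ∘ₗ (s.a.baseChange E) = LinearMap.id := by
      rw [← LinearMap.baseChange_comp, h1, LinearMap.baseChange_id]
    exact ModuleCat.hom_ext h2
  · exact ModuleCat.hom_ext (LinearMap.ext fun x => Subtype.ext (hb _))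

/-- The localization sequence `⋯ → T_q Z → T_q X → T_q U → T_{δ q} Z → ⋯`. -/
def HasLes (T : ι → Sch R → Obj E) (δ : ι ≃ ι) (Z X U : Sch R) : Prop :=
  ∃ (f : ∀ q, Hom (T q Z) (T q X)) (g : ∀ q, Hom (T q X) (T q U))
    (h : ∀ q, Hom (T q U) (T (δ q) Z)),
    (∀ q, ExactHom (f q) (g q)) ∧ (∀ q, ExactHom (g q) (h q)) ∧ ∀ q, ExactHom (h q) (f (δ q))

lemma les_pair {T : ι → Sch R → Obj E} {δ : ι ≃ ι} {Z X U : Sch R} (h : HasLes T δ Z X U) :
    LesPair (toPair T) δ Z X U := by
  obtain ⟨f, g, d, h1, h2, h3⟩ := h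
  refine ⟨⟨fun q => (f q).mA, fun q => (g q).mA, fun q => (d q).mA⟩,
    ⟨fun q => (f q).mB, fun q => (g q).mB, fun q => (d q).mB⟩, ?_, ?_, ?_⟩
  · exact ⟨fun q => exact_mA (h1 q), fun q => exact_mA (h2 q), fun q => exact_mA (h3 q)⟩
  · exact ⟨fun q => exact_mB (h1 q), fun q => exact_mB (h2 q), fun q => exact_mB (h3 q)⟩
  · exact ⟨fun q => (f q).comm, fun q => (g q).comm, fun q => (d q).comm⟩

/-- The standard properties of a family of regulators. -/
structure IsReg (T : ι → Sch R → Obj E) (δ τ σ : ι ≃ ι) : Prop where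
  iso : ∀ {X Y : Sch R}, FT True X → Nonempty (X ≅ Y) → ∀ q, (T q X).Same (T q Y)
  localization : ∀ {Z X U : Sch R} (i : Z ⟶ X) (j : U ⟶ X), FT True X → IsTriple i j →
    HasLes T δ Z X U
  bundle : ∀ (B : Type) [CommRing B] [Algebra R B] [Algebra.FiniteType R B] (m : ℕ)
    (f : Fin m → B) (U : Sch R) (j : U ⟶ aff R B), IsOpenImmersion j.left →
    Set.range j.left = {x : PrimeSpectrum B | ∃ l, f l ∉ x.asIdeal} →
    ∀ q, (T q (aff R (Jou f))).Same (T (((τ : Equiv.Perm ι) ^ (1 - m : ℤ)) q) U)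
  torus : ∀ (B : Type) [CommRing B] [Algebra R B] [Algebra.FiniteType R B] (q : ι),
    (T q (aff R B)).Factor (T (σ q) (aff R (LaurentPolynomial B)))

theorem isPair {T : ι → Sch R → Obj E} {δ τ σ : ι ≃ ι} (h : IsReg T δ τ σ) :
    IsPair (toPair T) δ τ σ where
  iso hX e q := same_at (h.iso hX e q)
  les i j hX ht := Or.inr (les_pair (h.localization i j hX ht))
  bundle B _ _ _ m f U j hj hr q := same_at (h.bundle B m f U j hj hr q)
  torus B _ _ _ q := factor_at (h.torus B q)

/-- All regulators of `X` are good. -/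
def AllGood (T : ι → Sch R → Obj E) (X : Sch R) : Prop := ∀ q, (T q X).Good

lemma allGood_iff (T : ι → Sch R → Obj E) (X : Sch R) : AllGood T X ↔ BijAll (toPair T) X :=
  forall_congr' fun q => (T q X).good_iff

theorem bnd_allGood {T : ι → Sch R → Obj E} {δ τ σ : ι ≃ ι} (h : IsReg T δ τ σ)
    (h1 : AllGood T (aff R R)) : Bnd True (AllGood T) := by
  have h2 : AllGood T = BijAll (toPair T) := funext fun X => propext (allGood_iff T X)
  rw [h2] at h1 ⊢
  exact bnd_pair (isPair h) h1

end pair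

end Pool.Agent.U317.UV
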